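import Pool.Agent.H76.GT.DefsT

/-!
# Linear groups: the transfer criterion

`TransferV C`: the transfer criterion for the class `C`, where the space may depend on the finite subset of the group.
-/

set_option autoImplicit false

namespace Pool.Agent.H76.LN

open Pool.Agent.H98.FJ Pool.Agent.H76.GT

/-- The transfer criterion: `G` is finitely generated, and for every finite subset `S` of `G` it acts on a compact contractible
controlled `N`-dominated metric space `X` such that there is a cover of `G × X` as in `IsCover`. Then `G` is in the class. -/
def TransferV (C : (G : Type) → [Group G] → Prop) : Prop :=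
  ∀ (G : Type) [Group G] (N : ℕ), Group.FG G →
    (∀ S : Set G, S.Finite → ∃ (X : Type) (_ : MetricSpace X) (_ : MulAction G X), CompactSpace X ∧ ContractibleSpace X ∧
      ContinuousConstSMul G X ∧ Dominated N X ∧ ∃ U : Set (Set (G × X)), IsCover C N S U) → C G

end Pool.Agent.H76.LN
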