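import Pool.Agent.H10.RA.Pg
import Pool.Agent.H98.RH.Defs
import Pool.Agent.H76.LN.TrV

/-!
# Linear groups: definitions

`PS n F`: the quotient of `SL_n(F)` by its centre, with its actions on the lattices (cosets of `GL_n(O)`) and on the subspaces
of the matrix algebra.
-/

set_option autoImplicit false

namespace Pool.Agent.H76.LN

open Pool.Agent.H98.FJ Pool.Agent.H54.TT Pool.Agent.H10.RA Pool.Agent.H76.GT

theorem TransferV.transfer {C : (G : Type) → [Group G] → Prop} (h : TransferV C) : Transfer C := by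
  intro G X _ _ _ _ _ _ N hfg hD hU
  exact h G N hfg fun S hS => ⟨X, inferInstance, inferInstance, inferInstance, inferInstance, inferInstance, hD, hU S hS⟩

variable {F : Type} [Field F] {n : ℕ}

/-- the special linear group -/
abbrev SLn (n : ℕ) (F : Type) [Field F] : Type := Matrix.SpecialLinearGroup (Fin n) F

/-- the quotient of the special linear group by its centre -/
abbrev PS (n : ℕ) (F : Type) [Field F] : Type := SLn n F ⧸ Subgroup.center (SLn n F)

/-- the quotient map -/
def ps (n : ℕ) (F : Type) [Field F] : SLn n F →* PS n F := QuotientGroup.mk' _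

theorem ps_surj : Function.Surjective (ps n F) := QuotientGroup.mk'_surjective _

/-- the inclusion in the general linear group -/
def sg (n : ℕ) (F : Type) [Field F] : SLn n F →* GL (Fin n) F := Matrix.SpecialLinearGroup.toGL

theorem sg_val (g : SLn n F) : (sg n F g).val = g.val := rfl

theorem sg_inj : Function.Injective (sg n F) := by
  intro g h e
  exact Subtype.ext (by rw [← sg_val, ← sg_val, e])

theorem sg_det (g : SLn n F) : (sg n F g).val.det = 1 := by
  rw [sg_val]
  exact g.2

/-- the central elements are the scalar matrices -/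
theorem mem_center_sl {g : SLn n F} : g ∈ Subgroup.center (SLn n F) ↔ ∃ c : F, g.val = c • (1 : Mn n F) := by
  rw [Matrix.SpecialLinearGroup.mem_center_iff]
  constructor
  · rintro ⟨r, -, hr⟩
    refine ⟨r, ?_⟩
    rw [← hr, Matrix.smul_one_eq_diagonal]
    rfl
  · rintro ⟨c, hc⟩
    refine ⟨c, ?_, ?_⟩
    · have h1 := g.2
      rw [hc, Matrix.det_smul, Matrix.det_one, mul_one] at h1
      exact h1
    · rw [hc, Matrix.smul_one_eq_diagonal]
      rfl

theorem ps_eq_one {g : SLn n F} : ps n F g = 1 ↔ ∃ c : F, g.val = c • (1 : Mn n F) := by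
  unfold ps
  rw [QuotientGroup.mk'_apply, QuotientGroup.eq_one_iff, mem_center_sl]

/-- the homomorphism to the projective linear group -/
def psg (n : ℕ) (F : Type) [Field F] : PS n F →* PG n F :=
  QuotientGroup.lift _ ((pr n F).comp (sg n F)) (by
    intro g hg
    obtain ⟨c, hc⟩ := mem_center_sl.1 hg
    rw [MonoidHom.mem_ker, MonoidHom.comp_apply, pr_eq_one]
    exact ⟨c, by rw [sg_val, hc]⟩)

theorem psg_ps (g : SLn n F) : psg n F (ps n F g) = pr n F (sg n F g) := rfl

theorem psg_inj : Function.Injective (psg n F) := by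
  rw [injective_iff_map_eq_one]
  intro x hx
  obtain ⟨g, rfl⟩ := ps_surj x
  rw [psg_ps, pr_eq_one] at hx
  rw [ps_eq_one]
  exact hx

/-- the action on the subspaces of the matrix algebra -/
instance : MulAction (PS n F) (Sp n F) := MulAction.compHom _ (psg n F)

theorem ps_smul_sp (g : PS n F) (A : Sp n F) : g • A = psg n F g • A := rfl

section

variable {v : F → ℤ} (hv : IsDV v)

/-- the group `GL_n(O)` -/
def GOv (n : ℕ) {v : F → ℤ} (hv : IsDV v) : Subgroup (GL (Fin n) F) where
  carrier := {g | GeN v 0 g.val ∧ v g.det.val = 0}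
  mul_mem' := by
    rintro g h ⟨h1, h2⟩ ⟨h3, h4⟩
    refine ⟨?_, ?_⟩
    · have h5 := geN_mul hv h1 h3
      rwa [add_zero] at h5
    · rw [map_mul, Units.val_mul, hv.mul _ _ g.det.ne_zero h.det.ne_zero, h2, h4, add_zero]
  one_mem' := ⟨geN_one hv, by rw [map_one, Units.val_one]; exact hv.one⟩
  inv_mem' := by
    rintro g ⟨h1, h2⟩
    have h3 : Zd v g := ⟨0, h1, by rw [h2, mul_zero]⟩
    obtain ⟨m, h4, h5⟩ := Zd.inv hv h3
    have h6 : v g⁻¹.det.val = 0 := by
      rw [map_inv, Units.val_inv_eq_inv_val, hv.inv g.det.ne_zero, h2, neg_zero]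
    rcases Nat.eq_zero_or_pos n with rfl | hn
    · exact ⟨fun i => i.elim0, h6⟩
    have h7 : m = 0 := by
      rw [h6] at h5
      rcases mul_eq_zero.1 h5.symm with h | h
      · have : (n : ℤ) ≠ 0 := by exact_mod_cast hn.ne'
        exact absurd h this
      · exact h
    rw [h7] at h4
    exact ⟨h4, h6⟩

/-- the lattices: the coset of `g` is the lattice `g O^n` -/
abbrev Lt (n : ℕ) {v : F → ℤ} (hv : IsDV v) : Type := GL (Fin n) F ⧸ GOv n hv

theorem lt_eq {g h : GL (Fin n) F} : ((g : Lt n hv) = (h : Lt n hv)) ↔ g⁻¹ * h ∈ GOv n hv := QuotientGroup.eq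

/-- scalar matrices of determinant one act trivially -/
theorem smul_of_scalar_sl {g : SLn n F} {c : F} (h : g.val = c • (1 : Mn n F)) (x : Lt n hv) : sg n F g • x = x := by
  obtain ⟨y, rfl⟩ := QuotientGroup.mk_surjective x
  show ((sg n F g * y : GL (Fin n) F) : Lt n hv) = (y : Lt n hv)
  rw [lt_eq]
  have hc : y * sg n F g = sg n F g * y := Subgroup.mem_center_iff.1 (mem_center_iff.2 ⟨c, by rw [sg_val, h]⟩) y
  have h1 : (sg n F g * y)⁻¹ * y = (sg n F g)⁻¹ := by
    rw [← hc, mul_inv_rev, mul_assoc, inv_mul_cancel, mul_one]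
  rw [h1]
  refine Subgroup.inv_mem _ ?_
  have hd : v (sg n F g).det.val = 0 := by
    have : (sg n F g).det.val = 1 := sg_det g
    rw [this]
    exact hv.one
  refine ⟨?_, hd⟩
  obtain ⟨m, h4, h5⟩ := zd_scalar hv (g := sg n F g) (c := c) (by rw [sg_val, h])
  rcases Nat.eq_zero_or_pos n with rfl | hn
  · exact fun i => i.elim0
  have h7 : m = 0 := by
    rw [hd] at h5
    rcases mul_eq_zero.1 h5.symm with h | h
    · have : (n : ℤ) ≠ 0 := by exact_mod_cast hn.ne'
      exact absurd h this
    · exact h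
  rw [h7] at h4
  exact h4

instance : MulAction (PS n F) (Lt n hv) where
  smul g x := Quotient.liftOn' g (fun a => sg n F a • x) (by
    intro a b h
    show sg n F a • x = sg n F b • x
    have h1 : a⁻¹ * b ∈ Subgroup.center (SLn n F) := QuotientGroup.leftRel_apply.1 h
    obtain ⟨c, hc⟩ := mem_center_sl.1 h1
    have h2 := smul_of_scalar_sl hv hc x
    rw [map_mul, map_inv, mul_smul] at h2
    exact (inv_smul_eq_iff.1 h2).symm)
  one_smul x := by
    show sg n F 1 • x = x
    rw [map_one, one_smul]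
  mul_smul g h x := by
    obtain ⟨a, rfl⟩ := QuotientGroup.mk_surjective g
    obtain ⟨b, rfl⟩ := QuotientGroup.mk_surjective h
    show sg n F (a * b) • x = sg n F a • sg n F b • x
    rw [map_mul, mul_smul]

theorem ps_smul (g : SLn n F) (x : Lt n hv) : ps n F g • x = sg n F g • x := rfl

/-- the module `g O^n` of the coset of `g` -/
noncomputable def lat (x : Lt n hv) : Submodule (Pool.Agent.H98.RH.Ov hv) (Fin n → F) :=
  Pool.Agent.H98.RH.LM hv x.out

end

/-- the tuples of lattices for the places in `s` -/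
abbrev Tup (n : ℕ) {ι : Type} {v : ι → F → ℤ} (hv : ∀ i, IsDV (v i)) (s : Finset ι) : Type := ∀ i : s, Lt n (hv i)

end Pool.Agent.H76.LN
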