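import Pool.Agent.H76.LN.Defs
import Pool.Agent.H98.FJ.P.Ext0
import Pool.Agent.H65.NT.Ring

/-!
# H76 LN, Psl: from the projective special linear groups to the projective linear groups and the linear groups
-/

set_option autoImplicit false

namespace Pool.Agent.H76.LN

open Pool.Agent.H98.FJ Pool.Agent.H54.TT Pool.Agent.H10.RA Pool.Agent.H76.GT

variable {F : Type} [Field F] {n : ℕ}

/-- the determinant modulo `n`-th powers -/
private def dq (n : ℕ) (F : Type) [Field F] : PG n F →* (Fˣ ⧸ (powMonoidHom n : Fˣ →* Fˣ).range) :=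
  QuotientGroup.lift _ ((QuotientGroup.mk' _).comp Matrix.GeneralLinearGroup.det) (by
    intro g hg
    obtain ⟨c, hc⟩ := mem_center_iff.1 hg
    rw [MonoidHom.mem_ker, MonoidHom.comp_apply, QuotientGroup.mk'_apply, QuotientGroup.eq_one_iff]
    have hdet : g.det.val = c ^ n := by
      show g.val.det = c ^ n
      rw [hc, Matrix.det_smul, Matrix.det_one, Fintype.card_fin, mul_one]
    rcases Nat.eq_zero_or_pos n with rfl | hn
    · refine ⟨1, Units.ext ?_⟩
      show ((1 : Fˣ) ^ 0 : Fˣ).val = g.det.val
      rw [hdet, pow_zero, pow_zero, Units.val_one]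
    · have hc0 : c ≠ 0 := by
        rintro rfl
        exact g.det.ne_zero (by rw [hdet, zero_pow (by omega)])
      refine ⟨Units.mk0 c hc0, Units.ext ?_⟩
      show ((Units.mk0 c hc0) ^ n : Fˣ).val = g.det.val
      rw [hdet, Units.val_pow_eq_pow_val, Units.val_mk0])

private theorem dq_pr (g : GL (Fin n) F) : dq n F (pr n F g) = QuotientGroup.mk' _ g.det := rfl

/-- the kernel of the determinant modulo `n`-th powers is the image of the special linear group -/
private theorem ker_dq : (dq n F).ker ≤ (psg n F).range := by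
  intro x hx
  obtain ⟨g, rfl⟩ := pr_surj x
  rw [MonoidHom.mem_ker, dq_pr, QuotientGroup.mk'_apply, QuotientGroup.eq_one_iff] at hx
  obtain ⟨c, hc⟩ := hx
  have hc' : c ^ n = g.det := hc
  have hd : ((c⁻¹ : Fˣ) : F) ^ n * g.val.det = 1 := by
    have h1 : g.val.det = ((g.det : Fˣ) : F) := rfl
    rw [h1, ← hc', Units.val_pow_eq_pow_val, ← mul_pow, Units.inv_mul, one_pow]
  let a : SLn n F := ⟨((c⁻¹ : Fˣ) : F) • g.val, by
    rw [Matrix.det_smul, Fintype.card_fin, hd]⟩
  refine ⟨ps n F a, ?_⟩
  rw [psg_ps, pr_eq]
  refine ⟨(c : F), ?_⟩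
  have h2 : (sg n F a).val = ((c⁻¹ : Fˣ) : F) • g.val := rfl
  have h3 : ((sg n F a)⁻¹ * g).val = (c : F) • (((sg n F a)⁻¹).val * (sg n F a).val) := by
    rw [h2, Matrix.mul_smul, smul_smul, Units.mul_inv, one_smul, Units.val_mul]
  rw [h3, ← Units.val_mul, inv_mul_cancel, Units.val_one]

/-- Proof. The quotient of the projective group by the kernel of the determinant modulo `n`-th powers is abelian, and a virtually
cyclic subgroup of it is finite. -/
theorem pg_of_ps {C : (G : Type) → [Group G] → Prop} (hC : Inherits C) (hE : Extension C)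
    (hS : ∀ (G : Type) [Group G], Group.IsSolvable G → C G) (h : C (PS n F)) : C (PG n F) := by
  have h1 : C (psg n F).range := hC.iso _ _ (MonoidHom.ofInjective psg_inj) h
  have h2 : C (dq n F).ker :=
    hC.iso _ _ (Subgroup.subgroupOfEquivOfLe ker_dq) (hC.sub _ ((dq n F).ker.subgroupOf (psg n F).range) h1)
  rcases Nat.eq_zero_or_pos n with rfl | hn
  · have hsub : Subsingleton (GL (Fin 0) F) := ⟨fun a b => Units.ext (Matrix.ext fun i => i.elim0)⟩
    have : Subsingleton (PG 0 F) := by
      refine ⟨fun a b => ?_⟩
      obtain ⟨a, rfl⟩ := pr_surj a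
      obtain ⟨b, rfl⟩ := pr_surj b
      rw [hsub.elim a b]
    exact hC.fin _ inferInstance
  · refine hE (PG n F) (dq n F).range (dq n F).rangeRestrict (dq n F).rangeRestrict_surjective ?_ ?_
    · refine hS _ ?_
      have : Group.IsSolvable (Fˣ ⧸ (powMonoidHom n : Fˣ →* Fˣ).range) := inferInstance
      infer_instance
    · intro V hV
      obtain ⟨w, hw⟩ := hV
      have hfin : Finite V := by
        have hpow : ∀ x : Fˣ ⧸ (powMonoidHom n : Fˣ →* Fˣ).range, x ^ n = 1 := by
          intro x
          obtain ⟨y, rfl⟩ := QuotientGroup.mk_surjective x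
          rw [← QuotientGroup.mk_pow, QuotientGroup.eq_one_iff]
          exact ⟨y, rfl⟩
        have hw1 : w ^ n = 1 := by
          apply Subtype.ext
          apply Subtype.ext
          exact hpow _
        have hord : IsOfFinOrder w := isOfFinOrder_iff_pow_eq_one.2 ⟨n, hn, hw1⟩
        have : Finite (Subgroup.zpowers w) := hord.finite_zpowers
        refine Nat.finite_of_card_ne_zero ?_
        rw [← Subgroup.card_mul_index (Subgroup.zpowers w)]
        exact Nat.mul_ne_zero (Nat.card_pos.ne') hw.index_ne_zero
      have hle : (dq n F).ker ≤ V.comap (dq n F).rangeRestrict := by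
        intro x hx
        rw [Subgroup.mem_comap]
        have : (dq n F).rangeRestrict x = 1 := Subtype.ext hx
        rw [this]
        exact V.one_mem
      have hidx : ((dq n F).ker.subgroupOf (V.comap (dq n F).rangeRestrict)).FiniteIndex := by
        let r : V.comap (dq n F).rangeRestrict →* V := (dq n F).rangeRestrict.subgroupComap V
        have h3 : (dq n F).ker.subgroupOf (V.comap (dq n F).rangeRestrict) = r.ker := by
          ext x
          rw [Subgroup.mem_subgroupOf, MonoidHom.mem_ker, MonoidHom.mem_ker]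
          constructor
          · intro hx
            exact Subtype.ext (Subtype.ext hx)
          · intro hx
            exact congrArg (fun y : V => ((y : (dq n F).range) : Fˣ ⧸ (powMonoidHom n : Fˣ →* Fˣ).range)) hx
        rw [h3]
        have : Finite r.range := inferInstance
        exact Subgroup.finiteIndex_ker r
      refine hC.index _ _ hidx ?_
      exact hC.iso _ _ (Subgroup.subgroupOfEquivOfLe hle).symm h2

/-- Proof. The kernel is abelian. -/
theorem gl_of_pg {C : (G : Type) → [Group G] → Prop} (hC : Inherits C) (hE : Extension C)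
    (hS : ∀ (G : Type) [Group G], Group.IsSolvable G → C G) (h : C (PG n F)) : C (GL (Fin n) F) := by
  refine Pool.Agent.H65.NT.solv_ext hC hE hS (pr n F) ?_ h
  have e : (pr n F).ker = Subgroup.center (GL (Fin n) F) := QuotientGroup.ker_mk' _
  rw [e]
  exact Group.isSolvable_of_comm fun a b => Subtype.ext (Subgroup.mem_center_iff.1 b.2 a)

end Pool.Agent.H76.LN
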