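import Pool.Agent.H76.LN.Defs
import Pool.Agent.H76.GT.PlD
import Pool.Agent.H2.WN.Defs
import Pool.Agent.H98.FJ.P.Ext0

/-!
# Linear groups: the statements which join the chapters (interface; the proofs are in the folders of the chapters)

CHAPTERS. `glue` (helper92; uses CORE of helper75, WINDOWS of helper2, SPACE of helper9, RING HOM of helper98);
`has_bdd`, `has_abl` (helper10); `na` (helper54); `base` and the induction over the fields (helper88); `pg_step`, `pg_of_ps`,
`gl_of_pg` (helper76).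
-/

set_option autoImplicit false

namespace Pool.Agent.H76.LN.Stm

open Pool.Agent.H98.FJ Pool.Agent.H54.TT Pool.Agent.H10.RA Pool.Agent.H76.GT Pool.Agent.H2.WN Pool.Agent.H76.LN

/-- the subspace is a subalgebra (with unit) -/
def IsAlg {F : Type} [Field F] {n : ℕ} (A : Sp n F) : Prop :=
  (1 : Mn n F) ∈ A.sub ∧ ∀ x ∈ A.sub, ∀ y ∈ A.sub, x * y ∈ A.sub

/-- NA (helper54): the stabiliser of a subalgebra which is neither the scalars nor everything -/
theorem na {C : (G : Type) → [Group G] → Prop} (hC : Inherits C) (hE : Extension C)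
    (hS : ∀ (G : Type) [Group G], Group.IsSolvable G → C G) {F : Type} [Field F] {n : ℕ}
    (hlow : ∀ j < n, C (PG j (AlgebraicClosure F))) (A : Sp n F) (hA : IsAlg A)
    (h1 : Module.finrank F A.sub ≠ 1) (h2 : A.sub ≠ ⊤) : C (MulAction.stabilizer (PG n F) A) := by
  sorry

/-- the residue field of every place is the field `k` of constants -/
structure Rat (k : Type) {F : Type} [Field k] [Field F] [Algebra k F] {ι : Type} (v : ι → F → ℤ) : Prop where
  const : ∀ i (c : k), c ≠ 0 → v i (algebraMap k F c) = 0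
  res : ∀ i (x : F), Ge (v i) 0 x → ∃ c : k, Ge (v i) 1 (x - algebraMap k F c)
  all : ∀ x : F, (∀ i, Ge (v i) 0 x) → ∃ c : k, algebraMap k F c = x

/-- BASE (helper88): a group which fixes a lattice at every place -/
theorem base {C : (G : Type) → [Group G] → Prop} (hC : Inherits C) (hE : Extension C)
    (hS : ∀ (G : Type) [Group G], Group.IsSolvable G → C G) {k F ι : Type} [Field k] [Field F] [Algebra k F]
    {v : ι → F → ℤ} (h : PlaceSys F ι v) (hr : Rat k v) {n : ℕ} (hk : ∀ N : ℕ, C (GL (Fin N) k))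
    (hna : ∀ A : Sp n F, IsAlg A → Module.finrank F A.sub ≠ 1 → A.sub ≠ ⊤ → C (MulAction.stabilizer (PG n F) A))
    (G : Subgroup (PS n F)) (hG : ∀ i, ∃ x : Lt n (h.dv i), ∀ g ∈ G, g • x = x) : C G := by
  sorry

/-- RIGIDITY (helper10): bounded subgroups. `C` contains the stabilisers of the tuples of lattices. -/
theorem has_bdd {C : (G : Type) → [Group G] → Prop} (hC : Inherits C) {F ι : Type} [Field F]
    {v : ι → F → ℤ} (h : PlaceSys F ι v) {n : ℕ}
    (hna : ∀ A : Sp n F, IsAlg A → Module.finrank F A.sub ≠ 1 → A.sub ≠ ⊤ → C (MulAction.stabilizer (PG n F) A))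
    (s : Finset ι) (hs : s.Nonempty) (G : Subgroup (PS n F)) (hG : ∀ i, i ∉ s → ∃ x : Lt n (h.dv i), ∀ g ∈ G, g • x = x)
    (hst : ∀ x : Tup n h.dv s, C (MulAction.stabilizer G x)) :
    HasObj C (BddGrp (Tup n h.dv s) (⊥ : Subgroup G)) (n ^ 2) := by
  sorry

/-- RIGIDITY (helper10): abelian subgroups -/
theorem has_abl {C : (G : Type) → [Group G] → Prop} (hC : Inherits C) {F ι : Type} [Field F]
    {v : ι → F → ℤ} (h : PlaceSys F ι v) {n : ℕ}
    (hna : ∀ A : Sp n F, IsAlg A → Module.finrank F A.sub ≠ 1 → A.sub ≠ ⊤ → C (MulAction.stabilizer (PG n F) A))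
    (s : Finset ι) (G : Subgroup (PS n F)) :
    HasObj C (AblGrp (Tup n h.dv s) (⊥ : Subgroup G) n) (n ^ 2) := by
  sorry

/-- GLUE (helper92) -/
theorem glue {C : (G : Type) → [Group G] → Prop} (hC : Inherits C) (hT : TransferV C) {k F ι : Type} [Field k] [Field F]
    [Algebra k F] {v : ι → F → ℤ} (hv : ∀ i, IsDV (v i)) (hr : Rat k v) {n : ℕ} (hn : 0 < n) (s : Finset ι)
    (hs : s.Nonempty) (G : Subgroup (PS n F)) (hG : G.FG) {D D' : ℕ}
    (hst : ∀ x : Tup n hv s, C (MulAction.stabilizer G x))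
    (hB : HasObj C (BddGrp (Tup n hv s) (⊥ : Subgroup G)) D)
    (hA : HasObj C (AblGrp (Tup n hv s) (⊥ : Subgroup G) n) D') : C G := by
  sorry

/-- the step from the constants to the field -/
theorem pg_step {C : (G : Type) → [Group G] → Prop} (hC : Inherits C) (hE : Extension C) (hT : TransferV C)
    (hS : ∀ (G : Type) [Group G], Group.IsSolvable G → C G) {k F ι : Type} [Field k] [Field F] [Algebra k F]
    {v : ι → F → ℤ} (h : PlaceSys F ι v) (hr : Rat k v) {n : ℕ} (hk : ∀ N : ℕ, C (GL (Fin N) k))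
    (hlow : ∀ j < n, C (PG j (AlgebraicClosure F))) : C (PG n F) := by
  sorry

/-- FIELDS (helper88): the projective groups over all fields -/
theorem pg_all {C : (G : Type) → [Group G] → Prop} (hC : Inherits C) (hE : Extension C) (hT : TransferV C)
    (hS : ∀ (G : Type) [Group G], Group.IsSolvable G → C G) (hQ : ∀ n : ℕ, C (GL (Fin n) ℚ))
    (F : Type) [Field F] (n : ℕ) : C (PG n F) := by
  sorry

/-- the main theorem -/
theorem gl_all {C : (G : Type) → [Group G] → Prop} (hC : Inherits C) (hE : Extension C) (hT : TransferV C)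
    (hS : ∀ (G : Type) [Group G], Group.IsSolvable G → C G) (hQ : ∀ n : ℕ, C (GL (Fin n) ℚ))
    (A : Type) [CommRing A] (n : ℕ) : C (GL (Fin n) A) := by
  sorry

end Pool.Agent.H76.LN.Stm
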