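import Pool.Agent.H76.LN.Psl
import Pool.Agent.H76.LN.Stm

/-!
# H76 LN, Step: from the constants to the field
-/

set_option autoImplicit false

namespace Pool.Agent.H76.LN

open Pool.Agent.H98.FJ Pool.Agent.H54.TT Pool.Agent.H10.RA Pool.Agent.H76.GT Pool.Agent.H2.WN

variable {F : Type} [Field F] {n : ℕ}

/-- every element fixes the standard lattice at almost all places: the entries have valuation zero or are zero -/
theorem fix_finite {ι : Type} {v : ι → F → ℤ} (h : PlaceSys F ι v) (g : PS n F) :
    {i | g • (((1 : GL (Fin n) F) : Lt n (h.dv i))) ≠ ((1 : GL (Fin n) F) : Lt n (h.dv i))}.Finite := by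
  obtain ⟨a, rfl⟩ := ps_surj g
  have hent : ∀ k l : Fin n, {i | a.val k l ≠ 0 ∧ v i (a.val k l) ≠ 0}.Finite := by
    intro k l
    by_cases h0 : a.val k l = 0
    · have h1 : {i | a.val k l ≠ 0 ∧ v i (a.val k l) ≠ 0} = ∅ := by
        ext i
        simp [h0]
      rw [h1]
      exact Set.finite_empty
    · exact (h.fin _ h0).subset fun i hi => hi.2
  have hall : (⋃ k : Fin n, ⋃ l : Fin n, {i | a.val k l ≠ 0 ∧ v i (a.val k l) ≠ 0}).Finite :=
    Set.finite_iUnion fun k => Set.finite_iUnion fun l => hent k l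
  refine hall.subset ?_
  intro i hi
  by_contra hcon
  simp only [Set.mem_iUnion, Set.mem_setOf_eq, not_exists, not_and, not_not] at hcon
  apply hi
  rw [ps_smul]
  show ((sg n F a * 1 : GL (Fin n) F) : Lt n (h.dv i)) = _
  rw [lt_eq, mul_one, mul_one]
  refine Subgroup.inv_mem _ ⟨fun k l => ?_, ?_⟩
  · intro h0
    exact (hcon k l h0).ge
  · have : (sg n F a).det.val = 1 := sg_det a
    rw [this]
    exact (h.dv i).one

/-- the union of the finitely generated subgroups -/
theorem ind_fg {C : (G : Type) → [Group G] → Prop} (hC : Inherits C) (G : Type) [Group G]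
    (h : ∀ H : Subgroup G, H.FG → C H) : C G := by
  classical
  refine hC.union (ι := Finset G) (fun s => Subgroup.closure (s : Set G)) ?_ ?_ ?_
  · intro s t hst
    exact Subgroup.closure_mono (by exact_mod_cast hst)
  · intro g
    exact ⟨{g}, Subgroup.subset_closure (by simp)⟩
  · intro s
    exact h _ ⟨s, rfl⟩

/-- PROOF. Finitely generated subgroups `G` of `PS n F` (`ind_fg`, `pg_of_ps`): the set of the places where a generator moves the
standard lattice is finite (`fix_finite`). If it is empty: `base`. Otherwise `glue`; the stabiliser of a tuple of lattices fixes a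
lattice at every place, so it is in the class by `base`. -/
theorem pg_step {C : (G : Type) → [Group G] → Prop} (hC : Inherits C) (hE : Extension C) (hT : TransferV C)
    (hS : ∀ (G : Type) [Group G], Group.IsSolvable G → C G) {k F ι : Type} [Field k] [Field F] [Algebra k F]
    {v : ι → F → ℤ} (h : PlaceSys F ι v) (hr : Stm.Rat k v) {n : ℕ} (hk : ∀ N : ℕ, C (GL (Fin N) k))
    (hlow : ∀ j < n, C (PG j (AlgebraicClosure F))) : C (PG n F) := by
  classical
  rcases Nat.eq_zero_or_pos n with rfl | hn
  · have hsub : Subsingleton (GL (Fin 0) F) := ⟨fun a b => Units.ext (Matrix.ext fun i => i.elim0)⟩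
    have : Subsingleton (PG 0 F) := by
      refine ⟨fun a b => ?_⟩
      obtain ⟨a, rfl⟩ := pr_surj a
      obtain ⟨b, rfl⟩ := pr_surj b
      rw [hsub.elim a b]
    exact hC.fin _ inferInstance
  have hna := fun A hA h1 h2 => Stm.na hC hE hS hlow A hA h1 h2
  refine pg_of_ps hC hE hS (ind_fg hC _ fun G hG => ?_)
  obtain ⟨S, hS'⟩ := hG
  have hfin : (⋃ g ∈ S, {i | g • (((1 : GL (Fin n) F) : Lt n (h.dv i))) ≠ ((1 : GL (Fin n) F) : Lt n (h.dv i))}).Finite :=
    Set.Finite.biUnion S.finite_toSet fun g _ => fix_finite h g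
  obtain ⟨s, hs⟩ : ∃ s : Finset ι, (s : Set ι) =
      ⋃ g ∈ S, {i | g • (((1 : GL (Fin n) F) : Lt n (h.dv i))) ≠ ((1 : GL (Fin n) F) : Lt n (h.dv i))} :=
    ⟨hfin.toFinset, hfin.coe_toFinset⟩
  have hfix : ∀ i, i ∉ s → ∃ x : Lt n (h.dv i), ∀ g ∈ G, g • x = x := by
    intro i hi
    refine ⟨((1 : GL (Fin n) F) : Lt n (h.dv i)), fun g hg => ?_⟩
    have h1 : G ≤ MulAction.stabilizer (PS n F) (((1 : GL (Fin n) F) : Lt n (h.dv i))) := by
      rw [← hS', Subgroup.closure_le]
      intro g hg
      show g • (((1 : GL (Fin n) F) : Lt n (h.dv i))) = ((1 : GL (Fin n) F) : Lt n (h.dv i))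
      by_contra hcon
      apply hi
      have h2 : i ∈ (s : Set ι) := by
        rw [hs]
        exact Set.mem_biUnion hg hcon
      exact h2
    exact h1 hg
  rcases s.eq_empty_or_nonempty with hs0 | hs1
  · exact Stm.base hC hE hS h hr hk hna G fun i => hfix i (by rw [hs0]; exact Finset.notMem_empty i)
  · have hst : ∀ x : Tup n h.dv s, C (MulAction.stabilizer G x) := by
      intro x
      have h3 : C ((MulAction.stabilizer G x).map G.subtype) := by
        refine Stm.base hC hE hS h hr hk hna _ fun i => ?_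
        by_cases hi : i ∈ s
        · refine ⟨x ⟨i, hi⟩, ?_⟩
          rintro _ ⟨g, hg, rfl⟩
          have h4 : g • x = x := hg
          exact congrFun h4 ⟨i, hi⟩
        · obtain ⟨y, hy⟩ := hfix i hi
          refine ⟨y, ?_⟩
          rintro _ ⟨g, -, rfl⟩
          exact hy _ g.2
      exact hC.iso _ _ ((MulAction.stabilizer G x).equivMapOfInjective G.subtype Subtype.val_injective).symm h3
    exact Stm.glue hC hT h.dv hr hn s hs1 G ⟨S, hS'⟩ hst
      (Stm.has_bdd hC h hna s hs1 G hfix hst) (Stm.has_abl hC h hna s G)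

end Pool.Agent.H76.LN
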